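import Pool.Agent.FS.RootH4.Data

/-! The finite checks. -/

namespace Pool.Agent.FS.RootH4

/-- rational part of the pairing -/
def dA (n v : V8) : ℤ := n.a0 * v.a0 + n.b0 * v.b0 + (n.a1 * v.a1 + n.b1 * v.b1) +
  (n.a2 * v.a2 + n.b2 * v.b2) + (n.a3 * v.a3 + n.b3 * v.b3)

/-- golden part of the pairing -/
def dB (n v : V8) : ℤ := n.a0 * v.b0 + n.b0 * v.a0 + n.b0 * v.b0 +
  (n.a1 * v.b1 + n.b1 * v.a1 + n.b1 * v.b1) + (n.a2 * v.b2 + n.b2 * v.a2 + n.b2 * v.b2) +
  (n.a3 * v.b3 + n.b3 * v.a3 + n.b3 * v.b3)

/-- the point number `t` -/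
def pv (t : ℕ) : V8 := pts.getD t ⟨0, 0, 0, 0, 0, 0, 0, 0⟩

/-- the intersection of the masks that contain `i` and `j` -/
def meet (i j : ℕ) (l : List ℕ) : ℕ :=
  l.foldr (fun m acc => bif m.testBit i && m.testBit j then m &&& acc else acc) (2 ^ 60 - 1)

/-- the union of the masks that contain `j` -/
def join (j : ℕ) (l : List ℕ) : ℕ :=
  l.foldr (fun m acc => bif m.testBit j then m ||| acc else acc) 0

lemma c_w : ((List.range 60).all fun t => (pv t).a3 != 0 || (pv t).b3 != 0) = true := by
  decide +kernel

lemma c_on : (pls.all fun e => (List.range 60).all fun t =>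
    !e.2.testBit t || (dA e.1 (pv t) == 0 && dB e.1 (pv t) == 0)) = true := by
  decide +kernel

lemma c_off : (big.all fun e => (List.range 60).all fun t =>
    e.2.testBit t == (dA e.1 (pv t) == 0 && dB e.1 (pv t) == 0)) = true := by
  decide +kernel

lemma c_nz : (pls.all fun e => e.1.a0 != 0 || e.1.b0 != 0 || e.1.a1 != 0 || e.1.b1 != 0 ||
    e.1.a2 != 0 || e.1.b2 != 0) = true := by
  decide +kernel

lemma c_cnt : ((List.range 60).all fun x =>
    decide ((pls.filter fun e => e.2.testBit x).length ≤ 121)) = true := by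
  decide +kernel

lemma c_cov : ((List.range 60).all fun x => (List.range 60).all fun j =>
    join j ((pls.filter fun e => e.2.testBit x).map Prod.snd) == 2 ^ 60 - 1) = true := by
  decide +kernel

lemma c_sep : ((List.range 60).all fun i => (List.range 60).all fun j =>
    i == j || big.any fun e => e.2.testBit i && !e.2.testBit j) = true := by
  decide +kernel

lemma c_ln : (lns.all fun e => decide (e.1 < 60) && decide (e.2.1 < 60) && e.1 != e.2.1 &&
    e.2.2 == meet e.1 e.2.1 (big.map Prod.snd)) = true := by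
  decide +kernel

lemma c_len : lns.length = 722 := by
  decide +kernel

/-- no later pair lies in an earlier mask -/
def pw : List (ℕ × ℕ × ℕ) → Bool
  | [] => true
  | e :: l => (l.all fun f => !(e.2.2.testBit f.1 && e.2.2.testBit f.2.1)) && pw l

lemma c_pw : pw lns = true := by
  decide +kernel

lemma c_five : ((List.range 5).all fun i => (List.range 5).all fun j => (List.range 5).all fun t =>
    i == j || t == i || t == j || !(meet i j (big.map Prod.snd)).testBit t) = true := by
  decide +kernel

end Pool.Agent.FS.RootH4
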