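import Pool.Agent.FS.RootH4.Check

/-! From the finite checks to points, lines and planes in three-space. -/

namespace Pool.Agent.FS.RootH4

open Module

/-- three-space -/
abbrev E3 := EuclideanSpace ℝ (Fin 3)

/-- the real number `a + b φ` -/
noncomputable def ev (a b : ℤ) : ℝ := a + b * Real.goldenRatio

lemma ev_eq_zero {a b : ℤ} : ev a b = 0 ↔ a = 0 ∧ b = 0 := by
  refine ⟨fun h => ?_, fun h => by simp [ev, h.1, h.2]⟩
  unfold ev at h
  by_cases hb : b = 0
  · subst hb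
    exact ⟨by simpa using h, rfl⟩
  · exact absurd (eq_neg_of_add_eq_zero_right h)
      (by rw [← Int.cast_neg]; exact (Real.goldenRatio_irrational.intCast_mul hb).ne_int _)

/-- the affine point with given homogeneous coordinates -/
noncomputable def toP (v : V8) : E3 :=
  !₂[ev v.a0 v.b0 / ev v.a3 v.b3, ev v.a1 v.b1 / ev v.a3 v.b3, ev v.a2 v.b2 / ev v.a3 v.b3]

/-- the point number `t` -/
noncomputable def pt (t : ℕ) : E3 := toP (pv t)

/-- the plane with given coefficients -/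
noncomputable def pl (n : V8) : AffineSubspace ℝ E3 where
  carrier := {y | ev n.a0 n.b0 * y 0 + ev n.a1 n.b1 * y 1 + ev n.a2 n.b2 * y 2 + ev n.a3 n.b3 = 0}
  smul_vsub_vadd_mem' := fun c p₁ p₂ p₃ h₁ h₂ h₃ => by
    simp only [Set.mem_ofPred_eq, vsub_eq_sub, vadd_eq_add, PiLp.add_apply, PiLp.smul_apply,
      PiLp.sub_apply, smul_eq_mul] at h₁ h₂ h₃ ⊢
    linear_combination c * h₁ - c * h₂ + h₃

lemma mem_pl {n : V8} {y : E3} : y ∈ pl n ↔
    ev n.a0 n.b0 * y 0 + ev n.a1 n.b1 * y 1 + ev n.a2 n.b2 * y 2 + ev n.a3 n.b3 = 0 := Iff.rfl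

lemma ev_dot (n v : V8) : ev (dA n v) (dB n v) = ev n.a0 n.b0 * ev v.a0 v.b0 +
    ev n.a1 n.b1 * ev v.a1 v.b1 + ev n.a2 n.b2 * ev v.a2 v.b2 + ev n.a3 n.b3 * ev v.a3 v.b3 := by
  unfold ev dA dB
  push_cast
  linear_combination (-((n.b0 : ℝ) * v.b0 + n.b1 * v.b1 + n.b2 * v.b2 + n.b3 * v.b3)) *
    Real.goldenRatio_sq

lemma w_ne {t : ℕ} (ht : t < 60) : ev (pv t).a3 (pv t).b3 ≠ 0 := by
  have h := List.all_eq_true.1 c_w t (List.mem_range.2 ht)
  intro h0
  obtain ⟨h1, h2⟩ := ev_eq_zero.1 h0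
  rw [h1, h2] at h
  exact absurd h (by decide)

lemma pt_mem {t : ℕ} (ht : t < 60) (n : V8) :
    pt t ∈ pl n ↔ (dA n (pv t) == 0 && dB n (pv t) == 0) = true := by
  have hw := w_ne ht
  rw [Bool.and_eq_true, beq_iff_eq, beq_iff_eq, ← ev_eq_zero, ev_dot, mem_pl]
  have e0 : pt t 0 = ev (pv t).a0 (pv t).b0 / ev (pv t).a3 (pv t).b3 := rfl
  have e1 : pt t 1 = ev (pv t).a1 (pv t).b1 / ev (pv t).a3 (pv t).b3 := rfl
  have e2 : pt t 2 = ev (pv t).a2 (pv t).b2 / ev (pv t).a3 (pv t).b3 := rfl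
  rw [e0, e1, e2, ← mul_left_inj' hw, zero_mul, add_mul, add_mul, add_mul, mul_assoc, mul_assoc,
    mul_assoc, div_mul_cancel₀ _ hw, div_mul_cancel₀ _ hw, div_mul_cancel₀ _ hw]

lemma on_pls {e : V8 × ℕ} (he : e ∈ pls) {t : ℕ} (ht : t < 60) (h : e.2.testBit t = true) :
    pt t ∈ pl e.1 := by
  have h1 := List.all_eq_true.1 (List.all_eq_true.1 c_on e he) t (List.mem_range.2 ht)
  rw [h, Bool.not_true, Bool.false_or] at h1
  exact (pt_mem ht _).2 h1

lemma on_big {e : V8 × ℕ} (he : e ∈ big) {t : ℕ} (ht : t < 60) :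
    pt t ∈ pl e.1 ↔ e.2.testBit t = true := by
  have h1 := List.all_eq_true.1 (List.all_eq_true.1 c_off e he) t (List.mem_range.2 ht)
  rw [pt_mem ht, beq_iff_eq.1 h1]

lemma pl_ne_top {e : V8 × ℕ} (he : e ∈ pls) : pl e.1 ≠ ⊤ := by
  intro h
  have h1 := List.all_eq_true.1 c_nz e he
  have k : ∀ y : E3, y ∈ pl e.1 := fun y => h ▸ AffineSubspace.mem_top ℝ E3 y
  have k0 := mem_pl.1 (k 0)
  have k1 := mem_pl.1 (k !₂[1, 0, 0])
  have k2 := mem_pl.1 (k !₂[0, 1, 0])
  have k3 := mem_pl.1 (k !₂[0, 0, 1])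
  simp at k0 k1 k2 k3
  rw [k0, add_zero, ev_eq_zero] at k1 k2 k3
  rw [k1.1, k1.2, k2.1, k2.2, k3.1, k3.2] at h1
  exact absurd h1 (by decide)

lemma pt_inj {i j : ℕ} (hi : i < 60) (hj : j < 60) (h : pt i = pt j) : i = j := by
  have h1 := List.all_eq_true.1 (List.all_eq_true.1 c_sep i (List.mem_range.2 hi)) j
    (List.mem_range.2 hj)
  rcases Bool.or_eq_true_iff.1 h1 with h2 | h2
  · exact beq_iff_eq.1 h2
  · obtain ⟨e, he, h3⟩ := List.any_eq_true.1 h2
    rw [Bool.and_eq_true, ← on_big he hi, h, on_big he hj] at h3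
    rw [h3.1] at h3
    exact absurd h3.2 (by decide)

lemma meet_bit {i j t : ℕ} (ht : t < 60) (l : List ℕ)
    (h : ∀ m ∈ l, m.testBit i = true → m.testBit j = true → m.testBit t = true) :
    (meet i j l).testBit t = true := by
  induction l with
  | nil => exact (Nat.testBit_two_pow_sub_one 60 t).trans (decide_eq_true ht)
  | cons m l ih =>
    have ih' := ih fun a ha => h a (List.mem_cons_of_mem _ ha)
    show (bif m.testBit i && m.testBit j then m &&& meet i j l else meet i j l).testBit t = true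
    cases h1 : m.testBit i
    · exact ih'
    cases h2 : m.testBit j
    · exact ih'
    show (m &&& meet i j l).testBit t = true
    rw [Nat.testBit_and, h m List.mem_cons_self h1 h2, ih']
    rfl

lemma join_bit {j t : ℕ} (l : List ℕ) (h : (join j l).testBit t = true) :
    ∃ m ∈ l, m.testBit j = true ∧ m.testBit t = true := by
  induction l with
  | nil => exact absurd h (by simp [join])
  | cons m l ih =>
    have h' : (bif m.testBit j then m ||| join j l else join j l).testBit t = true := h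
    cases h1 : m.testBit j
    · rw [h1] at h'
      obtain ⟨a, ha, h2⟩ := ih h'
      exact ⟨a, List.mem_cons_of_mem _ ha, h2⟩
    · rw [h1, cond_true, Nat.testBit_or, Bool.or_eq_true] at h'
      rcases h' with h2 | h2
      · exact ⟨m, List.mem_cons_self, h1, h2⟩
      · obtain ⟨a, ha, h3⟩ := ih h2
        exact ⟨a, List.mem_cons_of_mem _ ha, h3⟩

lemma cover {x i j : ℕ} (hx : x < 60) (hi : i < 60) (hj : j < 60) :
    ∃ e ∈ pls.filter fun e => e.2.testBit x,
      pt x ∈ pl e.1 ∧ pt i ∈ pl e.1 ∧ pt j ∈ pl e.1 ∧ pl e.1 ≠ ⊤ := by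
  have h1 := List.all_eq_true.1 (List.all_eq_true.1 c_cov x (List.mem_range.2 hx)) i
    (List.mem_range.2 hi)
  obtain ⟨m, hm, h2, h3⟩ := join_bit (t := j) _ (by
    rw [beq_iff_eq.1 h1]; exact (Nat.testBit_two_pow_sub_one 60 j).trans (decide_eq_true hj))
  obtain ⟨e, he, rfl⟩ := List.mem_map.1 hm
  obtain ⟨h4, h5⟩ := List.mem_filter.1 he
  exact ⟨e, he, on_pls h4 hx h5, on_pls h4 hi h2, on_pls h4 hj h3, pl_ne_top h4⟩

lemma line_eq {L : AffineSubspace ℝ E3} (hL : finrank ℝ L.direction = 1) {p q : E3} (h : p ≠ q)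
    (hp : p ∈ L) (hq : q ∈ L) : line[ℝ, p, q] = L := by
  have h1 : line[ℝ, p, q] ≤ L := affineSpan_pair_le_of_mem_of_mem hp hq
  refine AffineSubspace.ext_of_direction_eq (Submodule.eq_of_le_of_finrank_le
    (AffineSubspace.direction_le h1) ?_) ⟨p, left_mem_affineSpan_pair ℝ p q, hp⟩
  rw [hL, direction_affineSpan, vectorSpan_pair, finrank_span_singleton (vsub_ne_zero.2 h)]

lemma line_rank {p q : E3} (h : p ≠ q) : finrank ℝ (line[ℝ, p, q]).direction = 1 := by
  rw [direction_affineSpan, vectorSpan_pair, finrank_span_singleton (vsub_ne_zero.2 h)]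

lemma on_line {i j t : ℕ} (hi : i < 60) (hj : j < 60) (ht : t < 60)
    (h : pt t ∈ line[ℝ, pt i, pt j]) : (meet i j (big.map Prod.snd)).testBit t = true := by
  refine meet_bit ht _ fun m hm h1 h2 => ?_
  obtain ⟨e, he, rfl⟩ := List.mem_map.1 hm
  exact (on_big he ht).1
    (affineSpan_pair_le_of_mem_of_mem ((on_big he hi).2 h1) ((on_big he hj).2 h2) h)

lemma plane_eq {P Q : AffineSubspace ℝ E3} (hP : finrank ℝ P.direction = 2) (hQ : Q ≠ ⊤)
    {x b c : E3} (h : ¬ Collinear ℝ ({x, b, c} : Set E3)) (x1 : x ∈ P) (b1 : b ∈ P) (c1 : c ∈ P)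
    (x2 : x ∈ Q) (b2 : b ∈ Q) (c2 : c ∈ Q) : P = Q := by
  have h2 : 2 ≤ finrank ℝ (vectorSpan ℝ ({x, b, c} : Set E3)) := by
    rw [collinear_iff_finrank_le_one] at h
    omega
  have le : ∀ T : AffineSubspace ℝ E3, x ∈ T → b ∈ T → c ∈ T →
      vectorSpan ℝ ({x, b, c} : Set E3) ≤ T.direction := fun T h1 h2 h3 => by
    rw [← direction_affineSpan]
    refine AffineSubspace.direction_le (affineSpan_le.2 ?_)
    rintro y (rfl | rfl | rfl)
    exacts [h1, h2, h3]
  have h3 : finrank ℝ Q.direction < 3 := by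
    have := Submodule.finrank_lt (s := Q.direction)
      fun h0 => hQ ((AffineSubspace.direction_eq_top_iff_of_nonempty ⟨x, x2⟩).1 h0)
    rwa [finrank_euclideanSpace_fin] at this
  have e1 := Submodule.eq_of_le_of_finrank_le (le P x1 b1 c1) (by omega)
  have e2 := Submodule.eq_of_le_of_finrank_le (le Q x2 b2 c2) (by omega)
  exact AffineSubspace.ext_of_direction_eq (e1.symm.trans e2) ⟨x, x1, x2⟩

lemma pick (x : E3) {p q r : E3} (h : ¬ Collinear ℝ ({p, q, r} : Set E3)) :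
    ¬ Collinear ℝ ({x, q, r} : Set E3) ∨ ¬ Collinear ℝ ({x, p, q} : Set E3) ∨
      ¬ Collinear ℝ ({x, p, r} : Set E3) := by
  by_cases hx : x = p
  · exact Or.inl (hx ▸ h)
  by_contra hc
  push Not at hc
  obtain ⟨-, h1, h2⟩ := hc
  exact h (collinear_triple_of_mem_affineSpan_pair (right_mem_affineSpan_pair ℝ x p)
    (h1.mem_affineSpan_of_mem_of_ne (by simp) (by simp) (by simp) hx)
    (h2.mem_affineSpan_of_mem_of_ne (by simp) (by simp) (by simp) hx))

lemma pw_pair (l : List (ℕ × ℕ × ℕ)) (h : pw l = true) :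
    l.Pairwise fun e f => ¬ (e.2.2.testBit f.1 = true ∧ e.2.2.testBit f.2.1 = true) := by
  induction l with
  | nil => exact List.Pairwise.nil
  | cons e l ih =>
    have h' : ((l.all fun f => !(e.2.2.testBit f.1 && e.2.2.testBit f.2.1)) && pw l) = true := h
    rw [Bool.and_eq_true] at h'
    refine List.Pairwise.cons (fun f hf hc => ?_) (ih h'.2)
    have := List.all_eq_true.1 h'.1 f hf
    rw [hc.1, hc.2] at this
    exact absurd this (by decide)

lemma ln_spec {e : ℕ × ℕ × ℕ} (he : e ∈ lns) :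
    e.1 < 60 ∧ e.2.1 < 60 ∧ e.1 ≠ e.2.1 ∧ e.2.2 = meet e.1 e.2.1 (big.map Prod.snd) := by
  have h := List.all_eq_true.1 c_ln e he
  simp only [Bool.and_eq_true, decide_eq_true_eq, bne_iff_ne, beq_iff_eq] at h
  exact ⟨h.1.1.1, h.1.1.2, h.1.2, h.2⟩

lemma lines_nodup : (lns.map fun e => line[ℝ, pt e.1, pt e.2.1]).Nodup := by
  rw [List.Nodup, List.pairwise_map]
  refine (pw_pair lns c_pw).imp_of_mem fun {e f} he hf h h0 => h ?_
  obtain ⟨a1, a2, -, a4⟩ := ln_spec he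
  obtain ⟨b1, b2, -, -⟩ := ln_spec hf
  rw [a4]
  exact ⟨on_line a1 a2 b1 (h0 ▸ left_mem_affineSpan_pair ℝ _ _),
    on_line a1 a2 b2 (h0 ▸ right_mem_affineSpan_pair ℝ _ _)⟩

lemma five {L : AffineSubspace ℝ E3} (hL : finrank ℝ L.direction = 1) (i j t : ℕ) (hi : i < 5)
    (hj : j < 5) (ht : t < 5) (h1 : i ≠ j) (h2 : t ≠ i) (h3 : t ≠ j) :
    ¬ (pt i ∈ L ∧ pt j ∈ L ∧ pt t ∈ L) := by
  rintro ⟨a, b, c⟩
  have h := List.all_eq_true.1 (List.all_eq_true.1 (List.all_eq_true.1 c_five i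
    (List.mem_range.2 hi)) j (List.mem_range.2 hj)) t (List.mem_range.2 ht)
  rw [← line_eq hL (fun h0 => h1 (pt_inj (by omega) (by omega) h0)) a b] at c
  rw [on_line (by omega) (by omega) (by omega) c] at h
  simp [h1, h2, h3] at h

end Pool.Agent.FS.RootH4
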